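import Pool.Agent.Work.MP_8b8979_an.Poly

/-!
# Polynomial averages in uniquely ergodic systems: which polynomials converge

For an integer polynomial `p` which is nonnegative on the natural numbers there is a dichotomy.
If `p` is constant or `p = t + c`, then for every uniquely ergodic system the averages along `p`
converge at every point. For every other `p` (including `p = a t + b` with `a ≥ 2`) there are a
uniquely ergodic system on a compact metric space and a continuous function whose averages
along `p` diverge at every point of a dense open set.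
-/

open MeasureTheory Filter Topology Set Polynomial

namespace Pool.Agent.Results.MP_8b8979_an.Classification

open Pool.Agent.Work.MP_8b8979_an

theorem result (p : ℤ[X]) (hp : ∀ n : ℕ, 0 ≤ p.eval (n : ℤ)) :
    ((∃ c : ℤ, p = C c ∨ p = X + C c) →
      ∀ (Y : Type) [MetricSpace Y] [CompactSpace Y] [MeasurableSpace Y] [BorelSpace Y]
        (T : Y → Y), Continuous T → UniquelyErgodic T → ∀ (f : C(Y, ℝ)) (y : Y),
          ∃ L : ℝ, Tendsto (fun N : ℕ => (N : ℝ)⁻¹ *
            ∑ n ∈ Finset.range N, f (T^[(p.eval (n : ℤ)).toNat] y)) atTop (𝓝 L)) ∧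
    ((¬ ∃ c : ℤ, p = C c ∨ p = X + C c) →
      ∃ (Y : Type) (_ : MetricSpace Y) (_ : CompactSpace Y) (_ : MeasurableSpace Y)
        (_ : BorelSpace Y) (T : Y → Y), Continuous T ∧ UniquelyErgodic T ∧
        ∃ f : C(Y, ℝ), ∃ U : Set Y, IsOpen U ∧ Dense U ∧ ∀ y ∈ U,
          ¬ ∃ L : ℝ, Tendsto (fun N : ℕ => (N : ℝ)⁻¹ *
            ∑ n ∈ Finset.range N, f (T^[(p.eval (n : ℤ)).toNat] y)) atTop (𝓝 L)) := by
  constructor
  · rintro ⟨c, hc⟩ Y _ _ _ _ T hT hue f y
    rcases hc with rfl | rfl
    · refine ⟨f (T^[c.toNat] y), ?_⟩
      apply tendsto_const_nhds.congr'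
      filter_upwards [eventually_ge_atTop 1] with N hN
      simp only [eval_C, Finset.sum_const, Finset.card_range, nsmul_eq_mul]
      have : (N : ℝ) ≠ 0 := by
        have : N ≠ 0 := by omega
        exact_mod_cast this
      field_simp
    · have hc0 : 0 ≤ c := by
        have := hp 0
        simpa using this
      obtain ⟨L, hL⟩ := averages_tendsto T hT hue (T^[c.toNat] y) f f.continuous
      refine ⟨L, hL.congr fun N => ?_⟩
      congr 1
      apply Finset.sum_congr rfl
      intro n _
      rw [← Function.iterate_add_apply]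
      congr 2
      simp only [eval_add, eval_X, eval_C]
      omega
  · intro hc
    have hd0 : p.natDegree ≠ 0 := by
      intro h
      rw [natDegree_eq_zero] at h
      obtain ⟨c, hc'⟩ := h
      exact hc ⟨c, Or.inl hc'.symm⟩
    rcases Nat.lt_or_ge 1 p.natDegree with hd | hd
    · -- degree at least two
      obtain ⟨x, hx1, hx2⟩ := build_super (fun n => (p.eval (n : ℤ)).toNat) (by
        intro G
        obtain ⟨n₀, hn₀⟩ := increments hp hd G
        refine ⟨n₀, fun n hn => ?_⟩
        have h1 := hn₀ n hn
        have h2 := hp n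
        have h3 := hp (n + 1)
        omega)
      obtain ⟨Y, i1, i2, i3, i4, T, hT, hue, f, U, hU1, hU2, hU3⟩ :=
        system le_rfl x hx1 (fun n => (p.eval (n : ℤ)).toNat) (by
          intro k
          obtain ⟨n₁, hn₁⟩ := hx2 k
          exact ⟨n₁, fun n hn _ => hn₁ n hn⟩)
      exact ⟨Y, i1, i2, i3, i4, T, hT, hue, f, U, hU1, hU2, hU3⟩
    · -- degree one
      have hd1 : p.natDegree = 1 := by omega
      obtain ⟨a, ha, b, hab⟩ := natDegree_eq_one.mp hd1
      have hb0 : 0 ≤ b := by
        have := hp 0
        rw [← hab] at this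
        simpa using this
      have ha0 : 0 < a := by
        by_contra hcon
        push Not at hcon
        have ha' : a < 0 := lt_of_le_of_ne hcon ha
        have := hp (b.toNat + 1)
        rw [← hab] at this
        simp only [eval_add, eval_mul, eval_C, eval_X] at this
        push_cast at this
        rw [Int.toNat_of_nonneg hb0] at this
        nlinarith
      have ha1 : a ≠ 1 := by
        rintro rfl
        apply hc
        exact ⟨b, Or.inr (by rw [← hab]; simp)⟩
      obtain ⟨a', rfl⟩ := Int.eq_ofNat_of_zero_le ha0.le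
      obtain ⟨b', rfl⟩ := Int.eq_ofNat_of_zero_le hb0
      have ha2 : 2 ≤ a' := by omega
      have heval : ∀ n : ℕ, (p.eval (n : ℤ)).toNat = a' * n + b' := by
        intro n
        rw [← hab]
        simp only [eval_add, eval_mul, eval_C, eval_X]
        omega
      obtain ⟨x, hx1, hx2⟩ := build_linear ha2 b'
      obtain ⟨Y, i1, i2, i3, i4, T, hT, hue, f, U, hU1, hU2, hU3⟩ :=
        system ha2 x hx1 (fun n => (p.eval (n : ℤ)).toNat) (by
          intro k
          refine ⟨0, fun n _ h => ?_⟩
          rw [heval]
          exact hx2 k n h)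
      exact ⟨Y, i1, i2, i3, i4, T, hT, hue, f, U, hU1, hU2, hU3⟩

end Pool.Agent.Results.MP_8b8979_an.Classification
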